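import Pool.Agent.X69.Ric.InsC
import Pool.Agent.X69.Ric.PatC

/-!
# Patterns in sets of primes `n` with `((n + 1) ^ p - 1) / n` prime or almost prime, for several `p` at once

Let `q_p(n) = ((n + 1) ^ p - 1) / n` for a prime `p`.
(1) All but at most `ε X / (log X) ^ 2` elements of an arbitrary set `S` of integers `n` in an interval
`(A, A + X]`, for which `n` and `q_p(n)` have no prime factors up to `X ^ κ`, are centres of patterns in
`S` of the predicted number, with differences up to `D`, for every `D ≥ (log X) ^ B`.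
(2) Let `p_1, ..., p_M` be primes. `M` such sets, for the primes `p_j`, in `M` arbitrary intervals of length `X`,
with at least `δ X / (log X) ^ 2` elements each have common difference vectors: for a positive proportion of the
vectors `d ∈ {1, ..., D} ^ m` the `j`-th set contains for every `P ⊆ {0, ..., k - 1} ^ m` with `0 ∈ P` the
number of patterns `n + f · d`, `f ∈ P`, predicted for `p_j`, for all `j` at once.
(3) The primes `n` in `(X, 2 X]` for which `q_p(n)` has at most `r` prime factors, all larger than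
`n ^ (1 / r)`, are such a set, so that (2) is unconditional for its dense subsets.

The proof uses the theorems of `Pool.Agent.X26` (in this run) on patterns in dense sets of integers without small
prime factors and the lower bound for the set in (3) of the starting library.
-/

set_option autoImplicit false

namespace Pool.Agent.Results.MP_e7655a_nt.CommonPatterns

open Filter

/-- The number `((n + 1) ^ p - 1) / n`. -/
def value (p n : ℕ) : ℕ := ((n + 1) ^ p - 1) / n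

/-- All prime factors of `n` and of `value p n` are larger than `y`. -/
def Rough (p : ℕ) (y : ℝ) (n : ℕ) : Prop := ∀ q : ℕ, q.Prime → (q ∣ n ∨ q ∣ value p n) → y < q

/-- The integer `f · d = f 0 * d 0 + f 1 * d 1 + ...`. -/
def dot {m : ℕ} (f d : Fin m → ℕ) : ℕ := ∑ i, f i * d i

/-- `n` is a centre in `S` for `d`: all the integers `n + f · d` with `|f i| ≤ K` for all `i` are in `S`. -/
def Centre (K : ℕ) (S : Set ℕ) {m : ℕ} (n : ℕ) (d : Fin m → ℕ) : Prop :=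
  ∀ f : Fin m → ℤ, (∀ i, |f i| ≤ K) → ∃ s ∈ S, (s : ℤ) = n + ∑ i, f i * (d i : ℤ)

/-- The number of the vectors `d ∈ {1, ..., D} ^ m` for which `n` is a centre in `S`. -/
noncomputable def patterns (K m D : ℕ) (S : Set ℕ) (n : ℕ) : ℕ :=
  {d : Fin m → ℕ | (∀ i, 1 ≤ d i ∧ d i ≤ D) ∧ Centre K S n d}.ncard

/-- The number of the residues `u` modulo `q` such that `q` divides `n` or `value p n` for `n = u + f · d` with
some `f ∈ P`. -/
noncomputable def omega (p : ℕ) {m : ℕ} (d : Fin m → ℕ) (P : Finset (Fin m → ℕ)) (q : ℕ) : ℕ :=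
  {u : ℕ | 1 ≤ u ∧ u ≤ q ∧ ∃ f ∈ P, q ∣ u + dot f d ∨ q ∣ value p (u + dot f d)}.ncard

/-- The product of the `1 - w q / q` over the primes `q ≤ X`. -/
noncomputable def product (w : ℕ → ℕ) (X : ℕ) : ℝ :=
  ∏ q ∈ (Finset.Icc 1 X).filter Nat.Prime, (1 - (w q : ℝ) / q)

/-- The number of the `n ∈ S` such that all the `n + f · d`, `f ∈ P`, are in `S`. -/
noncomputable def count (S : Set ℕ) {m : ℕ} (d : Fin m → ℕ) (P : Finset (Fin m → ℕ)) : ℕ :=
  {n : ℕ | n ∈ S ∧ ∀ f ∈ P, n + dot f d ∈ S}.ncard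

/-- For all `P ⊆ {0, ..., k - 1} ^ m` with `0 ∈ P`: the integers `f · d`, `f ∈ P`, are different, and for all `j`
the conditions modulo the primes are solvable and the set `S j` contains at least
`c X ∏ (1 - omega (p j) d P q / q)` of the patterns `n + f · d`, `f ∈ P`. -/
def Common {M m : ℕ} (p : Fin M → ℕ) (c : ℝ) (k X : ℕ) (S : Fin M → Set ℕ) (d : Fin m → ℕ) : Prop :=
  ∀ P : Finset (Fin m → ℕ), (∀ f ∈ P, ∀ i, f i < k) → (fun _ => 0) ∈ P →
    Set.InjOn (fun f => dot f d) (P : Set (Fin m → ℕ)) ∧ ∀ j, (∀ q : ℕ, q.Prime → omega (p j) d P q < q) ∧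
      c * (X * product (omega (p j) d P) X) ≤ (count (S j) d P : ℝ)

/-- The primes `n` such that `value p n` has at most `r` prime factors, counted with multiplicity, all of them
larger than `n ^ (1 / r)`. -/
def Almost (p r : ℕ) : Set ℕ :=
  {n | n.Prime ∧ ArithmeticFunction.cardFactors (value p n) ≤ r ∧
    ∀ q : ℕ, q.Prime → q ∣ value p n → (n : ℝ) ^ (1 / (r : ℝ)) < q}

/-- **Patterns.** -/
theorem result (m : ℕ) :
    (∀ p : ℕ, p.Prime → ∀ (K : ℕ) (κ ε : ℝ), 1 ≤ K → 0 < κ → κ ≤ 1 → 0 < ε →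
      ∃ c : ℝ, 0 < c ∧ ∃ B : ℕ, ∀ᶠ X : ℕ in atTop,
      ∀ A D : ℕ, Real.log X ^ B ≤ D → D ≤ X → ∀ S : Set ℕ, S ⊆ Set.Ioc A (A + X) →
        (∀ n ∈ S, Rough p ((X : ℝ) ^ κ) n) →
        ({n : ℕ | n ∈ S ∧ (patterns K m D S n : ℝ) <
          c * ((D : ℝ) ^ m / Real.log X ^ (2 * ((2 * K + 1) ^ m - 1)))}.ncard : ℝ) ≤ ε * X / Real.log X ^ 2) ∧
    (∀ (M : ℕ) (p : Fin M → ℕ), (∀ j, (p j).Prime) → ∀ (k : ℕ) (κ δ : ℝ), 0 < κ → κ ≤ 1 → 0 < δ →
      ∃ c : ℝ, 0 < c ∧ ∃ B : ℕ, ∀ᶠ X : ℕ in atTop,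
      ∀ D : ℕ, Real.log X ^ B ≤ D → D ≤ X → ∀ (A : Fin M → ℕ) (S : Fin M → Set ℕ),
        (∀ j, S j ⊆ Set.Ioc (A j) (A j + X)) → (∀ j, ∀ n ∈ S j, Rough (p j) ((X : ℝ) ^ κ) n) →
        (∀ j, δ * X / Real.log X ^ 2 ≤ ((S j).ncard : ℝ)) →
        c * (D : ℝ) ^ m ≤ ({d : Fin m → ℕ | (∀ i, 1 ≤ d i ∧ d i ≤ D) ∧ Common p c k X S d}.ncard : ℝ)) ∧
    ∀ p : ℕ, p.Prime → ∃ r₀ : ℕ, 2 ≤ r₀ ∧ ∀ r : ℕ, r₀ ≤ r → ∃ δ : ℝ, 0 < δ ∧ ∀ᶠ X : ℕ in atTop,
      δ * X / Real.log X ^ 2 ≤ ((Almost p r ∩ Set.Ioc X (X + X)).ncard : ℝ) ∧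
      ∀ n ∈ Almost p r ∩ Set.Ioc X (X + X), Rough p ((X : ℝ) ^ (1 / (r : ℝ))) n := by
  have H := fun (p : ℕ) (hp : p.Prime) => Pool.Agent.X69.Ric.InsC.psys p hp
  have hR : ∀ p q n : ℕ, 1 ≤ n → ((q ∣ n ∨ q ∣ value p n) ↔
      (q ∣ n ∨ ∃ i, q ∣ Pool.Agent.X69.Ric.InsC.vC p n i)) := by
    intro p q n _
    constructor
    · rintro (h | h)
      · exact Or.inl h
      · exact Or.inr ⟨0, h⟩
    · rintro (h | ⟨i, h⟩)
      · exact Or.inl h
      · exact Or.inr h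
  have e : ∀ p r, Pool.Agent.X69.Ric.AVp (Pool.Agent.X69.Ric.InsC.vC p) r = Almost p r := by
    intro p r
    ext q
    exact ⟨fun hq => ⟨hq.1, (hq.2 0).1, (hq.2 0).2⟩, fun hq => ⟨hq.1, fun _ => ⟨hq.2.1, hq.2.2⟩⟩⟩
  refine ⟨fun p hp K κ ε hK hκ hκ1 hε => ?_, fun M p hp k κ δ hκ hκ1 hδ => ?_, fun p hp => ?_⟩
  · exact (H p hp).typ (fun q n => q ∣ n ∨ q ∣ value p n) (hR p) m K hK κ ε hκ hκ1 hε
  · exact Pool.Agent.X69.Ric.PSys.common (M := M) (fun j => H (p j) (hp j))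
      (fun j q n => q ∣ n ∨ q ∣ value (p j) n) (fun j => hR (p j)) m k κ δ hκ hκ1 hδ
  · obtain ⟨r₀, hr₀, h⟩ := (H p hp).dyadic
    refine ⟨r₀, hr₀, fun r hr => ?_⟩
    obtain ⟨c, hc, h1⟩ := h r hr
    refine ⟨c, hc, ?_⟩
    filter_upwards [h1] with X hX1
    rw [e] at hX1
    refine ⟨hX1, fun n hn q hq hd => ?_⟩
    rw [← e] at hn
    exact Pool.Agent.X69.Ric.AVp_gt r (hr₀.trans hr) hn.1 hn.2.1 q hq ((hR p q n (by have := hn.2.1; omega)).1 hd)

end Pool.Agent.Results.MP_e7655a_nt.CommonPatterns
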