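import Pool.Agent.X220.FP.Cor
import Pool.Agent.X220.FP.Alg

/-!
# Almost primes `n` with `((n + 1) ^ p - 1) / n` almost prime, with prescribed fractional parts, in short intervals

Let `p_1, …, p_t` be distinct primes and `q_p(n) = ((n + 1) ^ p - 1) / n`. Let `P_1, …, P_s` be real polynomials of degree
at most `k ≥ 1` whose vector of the coefficients of `x ^ k` is of finite type: the distance of `h_1 α_1 + … + h_s α_s` to the
nearest integer is at least `c₀ / |h| ^ τ` for all nonzero integral vectors `h` (for example `α_1, …, α_s` are algebraic and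
`1, α_1, …, α_s` are linearly independent over the rational numbers). We consider the numbers `n, q_{p_1}(n), …, q_{p_t}(n)`
for the integers `n` of an ARBITRARY short interval `(M, M + H]` for which all the fractional parts of `P_i(n) - u_i` are less
than `ρ_i`, where the `ρ_i` may be as small as `H ^ (-δ)`.
* If `M + H ≤ H ^ B`, where `B` is arbitrary, the number of the `n` for which all these values have a bounded number of prime
  factors, all greater than `H ^ δ`, has the expected order of magnitude.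
* The number of the `n` for which all of them are primes is at most of this order.
* The number of the `n` for which they have no prime factor up to `y` is given by an asymptotic formula.

All this is uniform in the polynomials, in `M`, and in the boxes. The proof combines the fundamental lemma of the sieve,
Mertens' theorem for polynomials (in the starting files), Weyl's inequality, and Liouville's inequality for norms.
-/

set_option autoImplicit false

namespace Pool.Agent.Results.MP_e7655a_nt.FractionalParts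

open Finset Polynomial

/-- the vector `α` is of finite type, with the constants `c₀` and `τ` -/
def FiniteType {s : ℕ} (c₀ : ℝ) (τ : ℕ) (α : Fin s → ℝ) : Prop :=
  ∀ h : Fin s → ℤ, h ≠ 0 → ∀ a : ℤ, c₀ ≤ (∑ i, |(h i : ℝ)|) ^ τ * |(∑ i, h i * α i) - a|

/-- all the fractional parts of `P_i(n) - u_i` are less than `ρ_i` -/
def InBox {s : ℕ} (P : Fin s → ℝ[X]) (u ρ : Fin s → ℝ) (n : ℕ) : Prop :=
  ∀ i, Int.fract ((P i).eval (n : ℝ) - u i) < ρ i

/-- `m ≠ 0` has at most `r` prime factors, counted with multiplicity, all of them greater than `x`. -/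
def AlmostPrime (r : ℕ) (x : ℝ) (m : ℕ) : Prop :=
  m ≠ 0 ∧ m.primeFactorsList.length ≤ r ∧ ∀ q : ℕ, q.Prime → q ∣ m → x < q

/-- the number `q_p(n) = ((n + 1) ^ p - 1) / n` as a polynomial in `n` -/
def qp (p n : ℕ) : ℕ := ∑ k ∈ Icc 1 p, p.choose k * n ^ (k - 1)

/-- the number of the `n` in `(M, M + H]` with the property `R` for which `n` and all the `q_p(n)`, `p = p_1, …, p_t`, are
almost primes -/
noncomputable def almost {t : ℕ} (p : Fin t → ℕ) (r : ℕ) (x : ℝ) (M H : ℕ) (R : ℕ → Prop) : ℕ :=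
  Set.ncard {n : ℕ | M < n ∧ n ≤ M + H ∧ R n ∧ AlmostPrime r x n ∧ ∀ j, AlmostPrime r x (qp (p j) n)}

/-- the number of the `n` in `(M, M + H]` with the property `R` for which `n` and all the `q_p(n)`, `p = p_1, …, p_t`, are
primes -/
noncomputable def primes {t : ℕ} (p : Fin t → ℕ) (M H : ℕ) (R : ℕ → Prop) : ℕ :=
  Set.ncard {n : ℕ | M < n ∧ n ≤ M + H ∧ R n ∧ n.Prime ∧ ∀ j, (qp (p j) n).Prime}

/-- the number of the `n` in `(M, M + H]` with the property `R` for which `n` and all the `q_p(n)`, `p = p_1, …, p_t`, have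
no prime factor up to `y` -/
noncomputable def rough {t : ℕ} (p : Fin t → ℕ) (y M H : ℕ) (R : ℕ → Prop) : ℕ :=
  Set.ncard {n : ℕ | M < n ∧ n ≤ M + H ∧ R n ∧ ∀ l : ℕ, l.Prime → l ≤ y → ¬ l ∣ n ∧ ∀ j, ¬ l ∣ qp (p j) n}

/-- the product over the primes `l ≤ y` of `1 - ν(l) / l`, where `ν(l)` is the number of the residues `a` modulo `l` for
which one of these values is divisible by `l` -/
noncomputable def V {t : ℕ} (p : Fin t → ℕ) (y : ℕ) : ℝ :=
  ∏ l ∈ (Icc 1 y).filter Nat.Prime, (1 - (Set.ncard {a : ℕ | a < l ∧ (l ∣ a ∨ ∃ j, l ∣ qp (p j) a)} : ℝ) / l)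

/-- the bounds for the interval `(M, M + H]` and the property `R`, with the expected number `N` -/
def Bounds {t : ℕ} (p : Fin t → ℕ) (P r : ℕ) (δ c C : ℝ) (B M H : ℕ) (R : ℕ → Prop) (N : ℝ) : Prop :=
  (M + H ≤ P ^ B → c * N / Real.log P ^ (t + 1) ≤ almost p r ((P : ℝ) ^ δ) M H R) ∧
    (primes p M H R : ℝ) ≤ C * N / Real.log P ^ (t + 1)

/-- the asymptotic formula for the interval `(M, M + H]` and the property `R`, with the expected number `N` -/
def Rough {t : ℕ} (p : Fin t → ℕ) (η : ℝ) (M H y : ℕ) (R : ℕ → Prop) (N : ℝ) : Prop :=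
  |(rough p y M H R : ℝ) - N * V p y| ≤ η * (N * V p y)

lemma qp_mul (p n : ℕ) : n * qp p n + 1 = (n + 1) ^ p := by
  have h1 : (n + 1) ^ p = ∑ k ∈ range (p + 1), n ^ k * p.choose k := by
    rw [add_pow]
    exact sum_congr rfl fun k _ => by simp
  have h2 : Icc 1 p = Ico (0 + 1) (p + 1) := by
    ext x
    simp only [mem_Icc, mem_Ico]
    omega
  rw [h1, sum_range_succ', pow_zero, Nat.choose_zero_right, one_mul]
  congr 1
  unfold qp
  rw [mul_sum, h2, ← sum_Ico_add' (fun k => n * (p.choose k * n ^ (k - 1))) 0 p 1, range_eq_Ico]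
  refine sum_congr rfl fun k _ => ?_
  rw [Nat.add_sub_cancel, pow_succ]
  ring

/-- the polynomials -/
noncomputable def f {t : ℕ} (p : Fin t → ℕ) : Fin (t + 1) → ℤ[X] :=
  Fin.cons X (fun j => (cyclotomic (p j) ℤ).comp (X + C 1))

/-- the values at natural numbers -/
def F {t : ℕ} (p : Fin t → ℕ) : Fin (t + 1) → ℕ → ℕ := Fin.cons (fun n => n) (fun j n => qp (p j) n)

lemma cyc0 {p : ℕ} (hp : p.Prime) : (cyclotomic p ℤ).eval 0 = 1 := by
  have h1 := cyclotomic_coeff_zero ℤ hp.one_lt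
  rw [coeff_zero_eq_eval_zero] at h1
  exact h1

/-- the polynomial `q_p` over the integers -/
lemma cyc_eval {p : ℕ} (hp : p.Prime) (n : ℤ) :
    ((cyclotomic p ℤ).comp (X + C 1)).eval n = ∑ k ∈ Icc 1 p, (p.choose k : ℤ) * n ^ (k - 1) := by
  have hpf : Fact p.Prime := ⟨hp⟩
  have h0 : ((cyclotomic p ℤ).comp (X + C 1)) = ∑ k ∈ Icc 1 p, C (p.choose k : ℤ) * X ^ (k - 1) := by
    have h1 : X * ((cyclotomic p ℤ).comp (X + C 1)) + 1 = (X + 1) ^ p := by
      have h2 := congrArg (fun g : ℤ[X] => g.comp (X + C 1)) (cyclotomic_prime_mul_X_sub_one ℤ p)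
      simp only [mul_comp, sub_comp, X_comp, one_comp, pow_comp] at h2
      have h3 : (X + C 1 - 1 : ℤ[X]) = X := by simp
      rw [h3] at h2
      rw [mul_comm, h2]
      simp
    have h4 : X * (∑ k ∈ Icc 1 p, C (p.choose k : ℤ) * X ^ (k - 1)) + 1 = (X + 1 : ℤ[X]) ^ p := by
      have h1 : (X + 1 : ℤ[X]) ^ p = ∑ k ∈ range (p + 1), X ^ k * (p.choose k : ℤ[X]) := by
        rw [add_pow]
        exact sum_congr rfl fun k _ => by simp
      have h2 : Icc 1 p = Ico (0 + 1) (p + 1) := by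
        ext x
        simp only [mem_Icc, mem_Ico]
        omega
      rw [h1, sum_range_succ', pow_zero, Nat.choose_zero_right, Nat.cast_one, one_mul]
      congr 1
      rw [mul_sum, h2, ← sum_Ico_add' (fun k => X * (C (p.choose k : ℤ) * X ^ (k - 1))) 0 p 1, range_eq_Ico]
      refine sum_congr rfl fun k _ => ?_
      rw [Nat.add_sub_cancel, pow_succ]
      simp only [map_natCast]
      ring
    have h5 : X * ((cyclotomic p ℤ).comp (X + C 1)) = X * (∑ k ∈ Icc 1 p, C (p.choose k : ℤ) * X ^ (k - 1)) := by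
      have := h1.trans h4.symm
      exact add_right_cancel this
    exact mul_left_cancel₀ X_ne_zero h5
  rw [h0]
  simp [eval_finsetSum]

lemma comp_irred (g : ℤ[X]) (hg : Irreducible g) (t : ℤ) : Irreducible (g.comp (X + C t)) := by
  have h := (MulEquiv.irreducible_iff (algEquivAevalXAddC t : ℤ[X] ≃ₐ[ℤ] ℤ[X])).2 hg
  have e : (algEquivAevalXAddC t : ℤ[X] ≃ₐ[ℤ] ℤ[X]) g = g.comp (X + C t) := by
    simp [algEquivAevalXAddC, comp, aeval_def]
  rwa [e] at h

lemma f_sys {t : ℕ} (p : Fin t → ℕ) (hp : ∀ j, (p j).Prime) (hinj : Function.Injective p) :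
    Pool.Agent.X55.Fam.Sys (t + 1) (f p) := by
  refine ⟨?_, ?_, ?_, ?_⟩
  · intro i
    refine Fin.cases ?_ (fun j => ?_) i
    · exact irreducible_X
    · show Irreducible ((cyclotomic (p j) ℤ).comp (X + C 1))
      exact comp_irred _ (cyclotomic.irreducible (hp j).pos) 1
  · intro i
    refine Fin.cases ?_ (fun j => ?_) i
    · show 0 < (X : ℤ[X]).natDegree
      simp
    · show 0 < ((cyclotomic (p j) ℤ).comp (X + C 1)).natDegree
      rw [natDegree_comp, natDegree_cyclotomic, natDegree_X_add_C, mul_one]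
      exact Nat.totient_pos.2 (hp j).pos
  · have h1 : ∀ j, ¬ Associated (X : ℤ[X]) ((cyclotomic (p j) ℤ).comp (X + C 1)) := by
      intro j
      refine Pool.Agent.X55.Fam.not_assoc 0 ?_
      rw [eval_X, cyc_eval (hp j)]
      have h2 : ∑ k ∈ Icc 1 (p j), ((p j).choose k : ℤ) * 0 ^ (k - 1) = p j := by
        rw [Finset.sum_eq_single 1]
        · simp
        · intro b hb hb1
          rw [mem_Icc] at hb
          rw [zero_pow (by omega), mul_zero]
        · intro h
          exact absurd (mem_Icc.2 ⟨le_rfl, (hp j).one_le⟩) h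
      rw [h2]
      have := (hp j).pos
      simp
      omega
    intro i j hij
    revert hij
    refine Fin.cases ?_ (fun a => ?_) i <;> refine Fin.cases ?_ (fun b => ?_) j
    · intro h
      exact absurd rfl h
    · intro _
      exact h1 b
    · intro _ h
      exact h1 a h.symm
    · intro hab
      show ¬ Associated ((cyclotomic (p a) ℤ).comp (X + C 1)) ((cyclotomic (p b) ℤ).comp (X + C 1))
      refine Pool.Agent.X55.Fam.not_assoc 0 ?_
      have h2 : ∀ j, ((cyclotomic (p j) ℤ).comp (X + C 1)).eval (0 : ℤ) = p j := by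
        intro j
        rw [cyc_eval (hp j), Finset.sum_eq_single 1]
        · simp
        · intro b hb hb1
          rw [mem_Icc] at hb
          rw [zero_pow (by omega), mul_zero]
        · intro h
          exact absurd (mem_Icc.2 ⟨le_rfl, (hp j).one_le⟩) h
      rw [h2, h2]
      intro h
      apply hab
      have h3 : p a = p b := by simpa using h
      rw [hinj h3]
  · intro q hq
    have hq2 := hq.two_le
    refine ⟨q - 1, fun i => ?_⟩
    have h3 : (((q - 1 : ℕ) : ℤ) + 1) = q := by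
      push_cast [Nat.cast_sub (by omega : 1 ≤ q)]
      ring
    refine Fin.cases ?_ (fun j => ?_) i
    · show ¬ (q : ℤ) ∣ (X : ℤ[X]).eval ((q - 1 : ℕ) : ℤ)
      rw [eval_X]
      intro h
      have h1 : q ∣ q - 1 := by exact_mod_cast h
      have := Nat.le_of_dvd (by omega) h1
      omega
    · show ¬ (q : ℤ) ∣ ((cyclotomic (p j) ℤ).comp (X + C 1)).eval ((q - 1 : ℕ) : ℤ)
      rw [eval_comp, eval_add, eval_X, eval_C, h3]
      intro h
      have h4 : (q : ℤ) ∣ (cyclotomic (p j) ℤ).eval (q : ℤ) - (cyclotomic (p j) ℤ).eval 0 := by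
        have := sub_dvd_eval_sub (q : ℤ) 0 (cyclotomic (p j) ℤ)
        rwa [sub_zero] at this
      rw [cyc0 (hp j)] at h4
      have h5 : (q : ℤ) ∣ 1 := by
        have := dvd_sub h h4
        simpa using this
      exact hq.one_lt.ne' (Nat.dvd_one.1 (by exact_mod_cast h5))

lemma hF {t : ℕ} (p : Fin t → ℕ) (hp : ∀ j, (p j).Prime) (i : Fin (t + 1)) (n : ℕ) :
    ((f p i).eval (n : ℤ)).natAbs = F p i n := by
  refine Fin.cases ?_ (fun j => ?_) i
  · show ((X : ℤ[X]).eval (n : ℤ)).natAbs = n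
    simp
  · show (((cyclotomic (p j) ℤ).comp (X + C 1)).eval (n : ℤ)).natAbs = qp (p j) n
    rw [cyc_eval (hp j)]
    have h1 : (∑ k ∈ Icc 1 (p j), ((p j).choose k : ℤ) * (n : ℤ) ^ (k - 1)) = ((qp (p j) n : ℕ) : ℤ) := by
      unfold qp
      push_cast
      rfl
    rw [h1, Int.natAbs_natCast]

lemma conv {t : ℕ} {p : Fin t → ℕ} {P r : ℕ} {δ c C : ℝ} {B M H : ℕ} {R : ℕ → Prop} {N : ℝ}
    (h : Pool.Agent.X55.Fam.Both (F p) P r δ c C B M H R N) : Bounds p P r δ c C B M H R N := by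
  unfold Pool.Agent.X55.Fam.Both at h
  simpa [Bounds, almost, primes, AlmostPrime, F, Pool.Agent.X55.Fam.Good, Fin.forall_fin_succ] using h

lemma convA {t : ℕ} {p : Fin t → ℕ} {η : ℝ} {M H y : ℕ} {R : ℕ → Prop} {N : ℝ}
    (h : Pool.Agent.X55.Fam.Asym (F p) η M H y R N) : Rough p η M H y R N := by
  unfold Pool.Agent.X55.Fam.Asym at h
  simpa [Rough, rough, V, F, Fin.forall_fin_succ, Fin.exists_fin_succ] using h

theorem result :
    -- the numbers `q_p(n)`
    (∀ p n : ℕ, n * qp p n + 1 = (n + 1) ^ p) ∧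
    (∀ (t : ℕ) (p : Fin t → ℕ), (∀ j, (p j).Prime) → Function.Injective p →
    ∀ (s k τ : ℕ) (c₀ : ℝ), 1 ≤ k → 0 < c₀ →
    (∀ B : ℕ, ∃ (r : ℕ) (δ c C : ℝ) (H₀ : ℕ), 0 < δ ∧ 0 < c ∧ 0 < C ∧
      ∀ H : ℕ, H₀ ≤ H → ∀ P : Fin s → ℝ[X], (∀ i, (P i).natDegree ≤ k) → FiniteType c₀ τ (fun i => (P i).coeff k) →
      ∀ u ρ : Fin s → ℝ, (∀ i, (H : ℝ) ^ (-δ) ≤ ρ i ∧ ρ i ≤ 1) → ∀ M : ℕ,
      Bounds p H r δ c C B M H (InBox P u ρ) (H * ∏ i, ρ i)) ∧
    (∀ η : ℝ, 0 < η → ∃ (δ : ℝ) (H₀ : ℕ), 0 < δ ∧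
      ∀ H : ℕ, H₀ ≤ H → ∀ P : Fin s → ℝ[X], (∀ i, (P i).natDegree ≤ k) → FiniteType c₀ τ (fun i => (P i).coeff k) →
      ∀ u ρ : Fin s → ℝ, (∀ i, (H : ℝ) ^ (-δ) ≤ ρ i ∧ ρ i ≤ 1) → ∀ M y : ℕ, 3 ≤ y → (y : ℝ) ≤ (H : ℝ) ^ δ →
      Rough p η M H y (InBox P u ρ) (H * ∏ i, ρ i))) ∧
    -- algebraic numbers
    (∀ (s : ℕ) (α : Fin s → ℝ), (∀ i, IsAlgebraic ℚ (α i)) →
      (∀ (h : Fin s → ℤ) (a : ℤ), ∑ i, (h i : ℝ) * α i = a → h = 0) →
      ∃ (c₀ : ℝ) (τ : ℕ), 0 < c₀ ∧ FiniteType c₀ τ α) := by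
  refine ⟨qp_mul, fun t p hp hinj s k τ c₀ hk hc₀ => ⟨?_, ?_⟩,
    fun s α hα hind => Pool.Agent.X220.FP.liouville_vec s α hα hind⟩
  · intro B
    obtain ⟨r, δ, c, C, H₀, hδ, hc, hC, h⟩ :=
      Pool.Agent.X220.FP.fp_both s k τ hk c₀ hc₀ (f_sys p hp hinj) (F p) (hF p hp) B
    exact ⟨r, δ, c, C, H₀, hδ, hc, hC, fun H hH P hP hFT u ρ hρ M => conv (h H hH P hP hFT u ρ hρ M)⟩
  · intro η hη
    obtain ⟨δ, H₀, hδ, h⟩ := Pool.Agent.X220.FP.fp_asym s k τ hk c₀ hc₀ (f_sys p hp hinj) (F p) (hF p hp) η hη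
    exact ⟨δ, H₀, hδ, fun H hH P hP hFT u ρ hρ M y hy hyH => convA (h H hH P hP hFT u ρ hρ M y hy hyH)⟩

end Pool.Agent.Results.MP_e7655a_nt.FractionalParts
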