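import Pool.Agent.X69.Ric.InsC

/-!
# The primes `n` with `((n + 1) ^ p - 1) / n` prime or almost prime: energy and pair correlations of the multiples

For every prime `p` and every set `A = {a 0 < a 1 < ...}` of integers `n` such that `n` and
`((n + 1) ^ p - 1) / n` have no prime factors below `n ^ δ`, with at least `c X / (log X) ^ 2` elements up to `X`
for all large `X`, the additive energy of the first `N` elements is `O (N ^ 3 / (log N) ^ 2)` and for almost all
real `α` the sequence `a k α` has Poissonian pair correlations modulo one. The primes `n` for which the second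
number has at most `r` prime factors, all larger than `n ^ (1 / r)`, are such a set.
-/

set_option autoImplicit false

namespace Pool.Agent.Results.MP_e7655a_nt.PairCorrelations

open Filter MeasureTheory

/-- `A` has at least `c X / (log X) ^ 2` elements in `[1, X]`, for some `c > 0` and all large `X`. -/
def Many (A : Set ℕ) : Prop :=
  ∃ c : ℝ, 0 < c ∧ ∀ᶠ X : ℕ in atTop, c * X / Real.log X ^ 2 ≤ ((A ∩ Set.Icc 1 X).ncard : ℝ)

/-- The number `((n + 1) ^ p - 1) / n`. -/
def value (p n : ℕ) : ℕ := ((n + 1) ^ p - 1) / n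

/-- No prime factor of `n` and of `value p n` is less than `n ^ δ`. -/
def Rough (p : ℕ) (δ : ℝ) (n : ℕ) : Prop := ∀ q : ℕ, q.Prime → (q ∣ n ∨ q ∣ value p n) → (n : ℝ) ^ δ ≤ q

/-- The primes `n` such that `value p n` has at most `r` prime factors, counted with multiplicity, all of them
larger than `n ^ (1 / r)`. -/
def Almost (p r : ℕ) : Set ℕ :=
  {n | n.Prime ∧ ArithmeticFunction.cardFactors (value p n) ≤ r ∧
    ∀ q : ℕ, q.Prime → q ∣ value p n → (n : ℝ) ^ (1 / (r : ℝ)) < q}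

/-- The additive energy of the first `N` elements of `A = {a 0 < a 1 < ...}`: the number of the quadruples
`(i, j, k, l)` of indices below `N` with `a i + a j = a k + a l`. -/
noncomputable def energy (A : Set ℕ) (N : ℕ) : ℕ :=
  (((Finset.range N ×ˢ Finset.range N) ×ˢ (Finset.range N ×ˢ Finset.range N)).filter
    (fun p => Nat.nth (· ∈ A) p.1.1 + Nat.nth (· ∈ A) p.1.2 =
      Nat.nth (· ∈ A) p.2.1 + Nat.nth (· ∈ A) p.2.2)).card

/-- The multiples `a 0 α, a 1 α, ...` of `α` by the elements of `A` have Poissonian pair correlations modulo one: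
for every `s > 0` the number of the pairs `(k, l)` of distinct indices below `N` with `‖a k α - a l α‖ < s / N`
(distance to the nearest integer), divided by `N`, tends to `2 s`. -/
def Poissonian (A : Set ℕ) (α : ℝ) : Prop := ∀ s : ℝ, 0 < s →
  Tendsto (fun N : ℕ => (1 / (N : ℝ)) * ((((Finset.range N) ×ˢ (Finset.range N)).filter
    (fun p => p.1 ≠ p.2 ∧
      |(Nat.nth (· ∈ A) p.1 : ℝ) * α - (Nat.nth (· ∈ A) p.2 : ℝ) * α -
        round ((Nat.nth (· ∈ A) p.1 : ℝ) * α - (Nat.nth (· ∈ A) p.2 : ℝ) * α)| < s / N)).card : ℝ))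
    atTop (nhds (2 * s))

/-- **Energy and pair correlations.** -/
theorem result (p : ℕ) (hp : p.Prime) :
    (∀ A : Set ℕ, ∀ δ : ℝ, 0 < δ → (∀ n ∈ A, Rough p δ n) → Many A →
      (∃ C : ℝ, 0 < C ∧ ∀ᶠ N : ℕ in atTop, (energy A N : ℝ) ≤ C * ((N : ℝ) ^ 3 / Real.log N ^ 2)) ∧
      ∀ᵐ α : ℝ, Poissonian A α) ∧
    ∃ r₀ : ℕ, 2 ≤ r₀ ∧ ∀ r : ℕ, r₀ ≤ r → Many (Almost p r) ∧
      (∃ C : ℝ, 0 < C ∧ ∀ᶠ N : ℕ in atTop, (energy (Almost p r) N : ℝ) ≤ C * ((N : ℝ) ^ 3 / Real.log N ^ 2)) ∧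
      ∀ᵐ α : ℝ, Poissonian (Almost p r) α := by
  have H := Pool.Agent.X69.Ric.InsC.psys p hp
  refine ⟨fun A δ hδ hA hM => H.ppc (by norm_num) A δ hδ (fun n hn q hq hd => hA n hn q hq (hd.imp_right (fun hi => hi.choose_spec))) hM, ?_⟩
  obtain ⟨r₀, hr₀, h⟩ := H.ppcAl (by norm_num)
  refine ⟨r₀, hr₀, fun r hr => ?_⟩
  have h1 := h r hr
  have e : Pool.Agent.X69.Ric.AVp (Pool.Agent.X69.Ric.InsC.vC p) r = Almost p r := by
    ext q
    exact ⟨fun hq => ⟨hq.1, (hq.2 0).1, (hq.2 0).2⟩, fun hq => ⟨hq.1, fun _ => ⟨hq.2.1, hq.2.2⟩⟩⟩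
  rw [e] at h1
  exact h1

end Pool.Agent.Results.MP_e7655a_nt.PairCorrelations
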